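import Mathlib

open Finset Filter

namespace Pool.Agent.H39.Sq

/-- The sum of the reciprocals of the primes congruent to 1 mod 12 diverges. -/
theorem not_summable_primes :
    ¬ Summable (fun n : ℕ => if n.Prime ∧ (n : ZMod 12) = 1 then (1 : ℝ) / n else 0) := by
  intro H
  set f : ℕ → ℝ := fun n => if n.Prime ∧ (n : ZMod 12) = 1 then (1 : ℝ) / n else 0 with hf
  have hf0 : ∀ n, 0 ≤ f n := by
    intro n; simp only [hf]; split_ifs <;> positivity
  set r : ℕ → ℝ := ArithmeticFunction.vonMangoldt.residueClass (1 : ZMod 12) with hr
  have hr0 : ∀ n, 0 ≤ r n := fun n => ArithmeticFunction.vonMangoldt.residueClass_nonneg _ n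
  obtain ⟨C, hC⟩ := ArithmeticFunction.vonMangoldt.LSeries_residueClass_lower_bound
    (q := 12) (a := 1) isUnit_one
  have hnp := ArithmeticFunction.vonMangoldt.summable_residueClass_non_primes_div
    (q := 12) (1 : ZMod 12)
  -- tail
  obtain ⟨T, hT⟩ : ∃ T : Finset ℕ, (∑' n, f n) - ∑ n ∈ T, f n < 1 / 8 := by
    have h1 := H.hasSum
    have h2 : ∀ᶠ T : Finset ℕ in atTop, (∑' n, f n) - 1 / 8 < ∑ n ∈ T, f n :=
      h1.eventually_const_lt (by linarith)
    obtain ⟨T, hT⟩ := h2.exists
    exact ⟨T, by linarith⟩
  set C1 : ℝ := ∑' n : ℕ, (if n.Prime then 0 else r n) / n with hC1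
  set C2 : ℝ := ∑ n ∈ T, r n / n with hC2
  have key : ∀ σ : ℝ, 0 < σ → σ ≤ 1 → (1 / 4 : ℝ) / σ - C ≤ C1 + C2 + (1 / 8) / σ := by
    intro σ h0 h1
    have h2 := hC (x := 1 + σ) ⟨by linarith, by linarith⟩
    have htot : ((Nat.totient 12 : ℕ) : ℝ)⁻¹ / (1 + σ - 1) = (1 / 4 : ℝ) / σ := by
      have : Nat.totient 12 = 4 := by decide
      rw [this]; norm_num
    rw [htot] at h2
    refine h2.trans ?_
    set g1 : ℕ → ℝ := fun n => (if n.Prime then 0 else r n) / n
    set g2 : ℕ → ℝ := fun n => if n ∈ T then r n / n else 0
    set g3 : ℕ → ℝ := fun n => (if n ∈ T then 0 else f n) * (1 / σ)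
    have s1 : Summable g1 := hnp
    have s2 : Summable g2 := by
      apply summable_of_hasFiniteSupport
      apply (T.finite_toSet).subset
      intro n hn
      by_contra h
      exact hn (by simp only [g2]; rw [if_neg]; simpa using h)
    have s3' : Summable (fun n => if n ∈ T then 0 else f n) := by
      refine Summable.of_nonneg_of_le (fun n => ?_) (fun n => ?_) H
      · split_ifs
        · exact le_rfl
        · exact hf0 n
      · split_ifs
        · exact hf0 n
        · exact le_rfl
    have s3 : Summable g3 := s3'.mul_right _
    have hle : ∑' n, r n / (n : ℝ) ^ (1 + σ) ≤ ∑' n, (g1 n + g2 n + g3 n) := by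
      refine Summable.tsum_le_tsum (fun n => ?_) ?_ ((s1.add s2).add s3)
      · rcases Nat.eq_zero_or_pos n with rfl | hn
        · have : r 0 = 0 := by simp [hr]
          simp only [this, zero_div, g1, g2, g3]
          have := hf0 0
          have hσ : 0 ≤ 1 / σ := by positivity
          split_ifs <;> simp <;> positivity
        · have hn' : (1 : ℝ) ≤ n := by exact_mod_cast hn
          have hpow : (n : ℝ) ≤ (n : ℝ) ^ (1 + σ) := by
            conv_lhs => rw [← Real.rpow_one (n : ℝ)]
            exact Real.rpow_le_rpow_of_exponent_le hn' (by linarith)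
          have hb : r n / (n : ℝ) ^ (1 + σ) ≤ r n / n :=
            div_le_div_of_nonneg_left (hr0 n) (by linarith) hpow
          have hg1 : 0 ≤ g1 n := by
            simp only [g1]; split_ifs
            · simp
            · exact div_nonneg (hr0 n) (by linarith)
          have hg2 : 0 ≤ g2 n := by
            simp only [g2]; split_ifs
            · exact div_nonneg (hr0 n) (by linarith)
            · exact le_rfl
          have hg3 : 0 ≤ g3 n := by
            simp only [g3]; apply mul_nonneg _ (by positivity)
            split_ifs
            · exact le_rfl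
            · exact hf0 n
          by_cases hp : n.Prime
          · by_cases hT' : n ∈ T
            · have : g2 n = r n / n := by simp only [g2]; rw [if_pos hT']
              linarith
            · have h3 : g3 n = f n * (1 / σ) := by simp only [g3]; rw [if_neg hT']
              have : r n / (n : ℝ) ^ (1 + σ) ≤ f n * (1 / σ) := by
                by_cases hm : (n : ZMod 12) = 1
                · have hrn : r n = Real.log n := by
                    simp only [hr, ArithmeticFunction.vonMangoldt.residueClass]
                    rw [Set.indicator_of_mem (by simpa using hm)]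
                    exact ArithmeticFunction.vonMangoldt_apply_prime hp
                  have hfn : f n = 1 / n := by
                    simp only [hf]; rw [if_pos ⟨hp, hm⟩]
                  rw [hrn, hfn]
                  have hlog := Real.log_le_rpow_div (x := (n : ℝ)) (by linarith) h0
                  rw [Real.rpow_add (by linarith), Real.rpow_one]
                  rw [div_mul_div_comm, one_mul, div_le_div_iff₀ (by positivity) (by positivity)]
                  rw [le_div_iff₀ h0] at hlog
                  have hnn : (0 : ℝ) ≤ n := by linarith
                  nlinarith [mul_le_mul_of_nonneg_left hlog hnn]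
                · have hrn : r n = 0 := by
                    simp only [hr, ArithmeticFunction.vonMangoldt.residueClass]
                    rw [Set.indicator_of_notMem (by simpa using hm)]
                  rw [hrn, zero_div]
                  exact mul_nonneg (hf0 n) (by positivity)
              linarith
          · have : g1 n = r n / n := by simp only [g1]; rw [if_neg hp]
            linarith
      · exact LSeries.summable_real_of_abscissaOfAbsConv_lt <|
          (ArithmeticFunction.vonMangoldt.abscissaOfAbsConv_residueClass_le_one _).trans_lt <| by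
            exact_mod_cast (by linarith : (1 : ℝ) < 1 + σ)
    refine hle.trans ?_
    rw [(s1.add s2).tsum_add s3, s1.tsum_add s2]
    have e2 : ∑' n, g2 n = C2 := by
      rw [hC2, tsum_eq_sum (s := T)]
      · apply Finset.sum_congr rfl
        intro n hn
        simp only [g2]; rw [if_pos hn]
      · intro n hn
        simp only [g2]; rw [if_neg hn]
    have e3 : ∑' n, g3 n ≤ (1 / 8) / σ := by
      have h3 : ∑' n, g3 n = (∑' n, if n ∈ T then 0 else f n) * (1 / σ) := by
        simp only [g3]; rw [tsum_mul_right]
      rw [h3]
      have h4 : (∑' n, if n ∈ T then 0 else f n) = (∑' n, f n) - ∑ n ∈ T, f n := by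
        have h5 : Summable (fun n => if n ∈ T then f n else 0) := by
          apply summable_of_hasFiniteSupport
          apply (T.finite_toSet).subset
          intro n hn
          by_contra h
          exact hn (by simp only []; rw [if_neg]; simpa using h)
        have h6 : (∑' n, f n) = (∑' n, if n ∈ T then f n else 0) + ∑' n, if n ∈ T then 0 else f n := by
          rw [← h5.tsum_add s3']
          apply tsum_congr
          intro n
          split_ifs <;> simp
        have h7 : (∑' n, if n ∈ T then f n else 0) = ∑ n ∈ T, f n := by
          rw [tsum_eq_sum (s := T)]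
          · apply Finset.sum_congr rfl
            intro n hn
            rw [if_pos hn]
          · intro n hn
            rw [if_neg hn]
        linarith
      rw [h4, div_eq_mul_one_div (1 / 8 : ℝ) σ]
      exact mul_le_mul_of_nonneg_right hT.le (by positivity)
    rw [e2]
    linarith
  -- contradiction
  set M : ℝ := |C + C1 + C2| + 1 with hM
  have hM1 : 1 ≤ M := by rw [hM]; linarith [abs_nonneg (C + C1 + C2)]
  have h := key (1 / (16 * M)) (by positivity) (by
    rw [div_le_one (by positivity)]; linarith)
  have e : ∀ a : ℝ, a / (1 / (16 * M)) = a * (16 * M) := by intro a; field_simp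
  rw [e, e] at h
  have : C + C1 + C2 ≤ M - 1 := by rw [hM]; linarith [le_abs_self (C + C1 + C2)]
  linarith

theorem exists_primes (M : ℝ) : ∃ P : Finset ℕ, (∀ p ∈ P, p.Prime ∧ p % 12 = 1) ∧
    M ≤ ∑ p ∈ P, (1 : ℝ) / p := by
  by_contra hcon
  push Not at hcon
  apply not_summable_primes
  apply summable_of_sum_le (c := M)
  · intro n
    change (0 : ℝ) ≤ if n.Prime ∧ (n : ZMod 12) = 1 then (1 : ℝ) / n else 0
    split_ifs <;> positivity
  · intro u
    have h := hcon (u.filter (fun n => n.Prime ∧ (n : ZMod 12) = 1)) (by
      intro p hp
      rw [Finset.mem_filter] at hp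
      refine ⟨hp.2.1, ?_⟩
      have := (ZMod.natCast_eq_natCast_iff' p 1 12).mp (by simpa using hp.2.2)
      simpa using this)
    rw [Finset.sum_filter] at h
    exact h.le

end Pool.Agent.H39.Sq
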