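import Mathlib

open Finset Filter

namespace Pool.Agent.H39.Sq

/-- `n` is the length of a block of consecutive positive integers whose squares add up to a square. -/
def IsLen (n : ℕ) : Prop :=
  1 ≤ n ∧ ∃ a m : ℕ, 1 ≤ a ∧ ∑ i ∈ Finset.range n, (a + i) ^ 2 = m ^ 2

theorem sum_sq (a : ℤ) (n : ℕ) :
    12 * ∑ i ∈ Finset.range n, (a + i) ^ 2 = n * (3 * (2 * a + n - 1) ^ 2 + (n ^ 2 - 1)) := by
  induction n with
  | zero => simp
  | succ n ih =>
    rw [Finset.sum_range_succ, mul_add, ih]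
    push_cast
    ring

/-- Key identity. -/
theorem isLen_of (D k v u : ℕ) (hk : 1 ≤ k) (hv : 1 ≤ v) (h12 : D % 12 = 11) (hk2 : k % 2 = 1)
    (hD : D * (k ^ 2 + 12 * v ^ 2) + 1 = 12 * u ^ 2) : IsLen (D * k ^ 2) := by
  have hD11 : 11 ≤ D := by omega
  have hu : k ≤ 2 * u := by nlinarith
  -- D is not a square
  have hns : ¬ IsSquare (D : ℤ) := by
    rintro ⟨s, hs⟩
    have h1 : (D : ℤ) % 4 = 3 := by omega
    rw [hs] at h1
    rcases Int.even_or_odd s with ⟨t, ht⟩ | ⟨t, ht⟩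
    · subst ht
      have : (t + t) * (t + t) = 4 * (t * t) := by ring
      omega
    · subst ht
      have : (2 * t + 1) * (2 * t + 1) = 4 * (t * t + t) + 1 := by ring
      omega
  obtain ⟨s, r, hsr, hr0⟩ := Pell.exists_of_not_isSquare (d := (D : ℤ)) (by positivity) hns
  -- make s, r positive
  obtain ⟨s, r, hsr, hr0, hs0⟩ : ∃ s r : ℤ, s ^ 2 - D * r ^ 2 = 1 ∧ 1 ≤ r ∧ 0 ≤ s := by
    refine ⟨|s|, |r|, ?_, Int.one_le_abs hr0, abs_nonneg s⟩
    rw [sq_abs, sq_abs]; exact hsr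
  have hDz : (D : ℤ) * (k ^ 2 + 12 * v ^ 2) + 1 = 12 * u ^ 2 := by exact_mod_cast hD
  set y0 : ℤ := u + k * v * D with hy0
  set X0 : ℤ := v + k * u with hX0
  set y1 : ℤ := s * y0 + D * r * X0 with hy1
  set X1 : ℤ := s * X0 + r * y0 with hX1
  have h0 : 12 * (D * X0 ^ 2 - y0 ^ 2) = (D * k ^ 2 : ℤ) ^ 2 - 1 := by
    rw [hy0, hX0]
    have : (12 : ℤ) * (D * (v + k * u) ^ 2 - (u + k * v * D) ^ 2)
      = (D * k ^ 2 - 1) * (12 * u ^ 2 - 12 * D * v ^ 2) := by ring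
    rw [this]
    have h2 : (12 : ℤ) * u ^ 2 - 12 * D * v ^ 2 = D * k ^ 2 + 1 := by linarith
    rw [h2]; ring
  have h1 : 12 * (D * X1 ^ 2 - y1 ^ 2) = (D * k ^ 2 : ℤ) ^ 2 - 1 := by
    rw [← h0, hy1, hX1]
    have : (12 : ℤ) * (D * (s * X0 + r * y0) ^ 2 - (s * y0 + D * r * X0) ^ 2)
      = 12 * (D * X0 ^ 2 - y0 ^ 2) * (s ^ 2 - D * r ^ 2) := by ring
    rw [this, hsr]; ring
  -- parity of n
  have hodd : (D * k ^ 2) % 2 = 1 := by
    have hDo : D % 2 = 1 := by omega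
    rw [Nat.mul_mod, Nat.pow_mod, hk2, hDo]
  obtain ⟨j, hj⟩ : ∃ j : ℕ, D * k ^ 2 = 2 * j + 1 := ⟨D * k ^ 2 / 2, by omega⟩
  have hjz : (D * k ^ 2 : ℤ) = 2 * j + 1 := by exact_mod_cast hj
  -- a = y1 - j
  have hy0p : 0 ≤ y0 := by rw [hy0]; positivity
  have hX0p : (k : ℤ) * u + 1 ≤ X0 := by rw [hX0]; have : (1 : ℤ) ≤ v := by exact_mod_cast hv
                                         linarith
  have hy1b : (D : ℤ) * (k * u + 1) ≤ y1 := by
    rw [hy1]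
    have a1 : 0 ≤ s * y0 := mul_nonneg hs0 hy0p
    have a2 : (D : ℤ) * (k * u + 1) ≤ D * r * X0 := by
      have b1 : (0 : ℤ) ≤ D := by positivity
      have b3 : (0 : ℤ) ≤ k * u := by positivity
      have b4 : 0 ≤ (r - 1) * X0 := mul_nonneg (by linarith) (by linarith)
      have b2 : (k : ℤ) * u + 1 ≤ r * X0 := by linarith
      calc (D : ℤ) * (k * u + 1) ≤ D * (r * X0) := mul_le_mul_of_nonneg_left b2 b1
        _ = D * r * X0 := by ring
    linarith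
  have hapos : 1 ≤ y1 - j := by
    have c1 : (k : ℤ) ≤ 2 * u := by exact_mod_cast hu
    have c2 : (D : ℤ) * k ^ 2 ≤ D * (2 * (k * u)) := by
      apply mul_le_mul_of_nonneg_left _ (by positivity)
      nlinarith
    have c3 : (11 : ℤ) ≤ D := by exact_mod_cast hD11
    nlinarith
  refine ⟨by rw [hj]; omega, (y1 - j).toNat, (D * k * X1).toNat, by omega, ?_⟩
  have hX1p : 0 ≤ X1 := by
    rw [hX1]
    have : 0 ≤ X0 := by linarith [show (0 : ℤ) ≤ k * u by positivity]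
    positivity
  zify
  rw [Int.toNat_of_nonneg (by linarith), Int.toNat_of_nonneg (by positivity)]
  have hs := sum_sq (y1 - j) (D * k ^ 2)
  push_cast at hs
  have e1 : (2 * (y1 - j) + (D : ℤ) * k ^ 2 - 1) = 2 * y1 := by rw [hjz]; ring
  rw [e1] at hs
  have e2 : (D : ℤ) * k ^ 2 * (3 * (2 * y1) ^ 2 + (((D : ℤ) * k ^ 2) ^ 2 - 1))
      = 12 * (D * k * X1) ^ 2 := by
    rw [← h1]; ring
  rw [e2] at hs
  linarith

end Pool.Agent.H39.Sq
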