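import Mathlib

open Finset Filter

namespace Pool.Agent.H39.Sq

/-- A prime `p = 1 mod 12` has the form `k^2 + 12 v^2`. -/
theorem exists_rep (p : ℕ) (hp : p.Prime) (h12 : p % 12 = 1) :
    ∃ k v : ℕ, 1 ≤ k ∧ 1 ≤ v ∧ k % 2 = 1 ∧ k ^ 2 + 12 * v ^ 2 = p := by
  have : Fact p.Prime := ⟨hp⟩
  -- an element of order 3
  obtain ⟨w, hw⟩ : ∃ w : (ZMod p)ˣ, orderOf w = 3 := by
    apply exists_prime_orderOf_dvd_card'
    rw [Nat.card_eq_fintype_card, ZMod.card_units_eq_totient, Nat.totient_prime hp]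
    omega
  have hw3 : (w : ZMod p) ^ 3 = 1 := by
    have h := pow_orderOf_eq_one w
    rw [hw] at h
    rw [← Units.val_pow_eq_pow_val, h, Units.val_one]
  have hw1 : (w : ZMod p) ≠ 1 := by
    intro h
    have : w = 1 := by ext; simpa using h
    rw [this] at hw; simp at hw
  have hww : (w : ZMod p) ^ 2 + w + 1 = 0 := by
    have : ((w : ZMod p) - 1) * ((w : ZMod p) ^ 2 + w + 1) = 0 := by
      have : ((w : ZMod p) - 1) * ((w : ZMod p) ^ 2 + w + 1) = (w : ZMod p) ^ 3 - 1 := by ring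
      rw [this, hw3]; ring
    rcases mul_eq_zero.mp this with h | h
    · exact absurd (sub_eq_zero.mp h) hw1
    · exact h
  set ρ : ZMod p := 2 * (w : ZMod p) + 1 with hρ
  have hρ2 : ρ ^ 2 = -3 := by
    rw [hρ]
    have : (2 * (w : ZMod p) + 1) ^ 2 = 4 * ((w : ZMod p) ^ 2 + w + 1) - 3 := by ring
    rw [this, hww]; ring
  -- pigeonhole
  set s : ℕ := Nat.sqrt p with hs
  have hs1 : s * s ≤ p := Nat.sqrt_le p
  have hs2 : p < (s + 1) * (s + 1) := Nat.lt_succ_sqrt p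
  have hs3 : s * s ≠ p := by
    intro h
    have := hp.eq_one_or_self_of_dvd s ⟨s, h.symm⟩
    rcases this with h1 | h1
    · rw [h1] at h; have := hp.one_lt; omega
    · rw [h1] at h; have := hp.one_lt; nlinarith
  obtain ⟨x, hx, y, hy, hxy, hfe⟩ :=
    Finset.exists_ne_map_eq_of_card_lt_of_maps_to
      (s := (Finset.range (s + 1)) ×ˢ (Finset.range (s + 1))) (t := (Finset.univ : Finset (ZMod p)))
      (f := fun z : ℕ × ℕ => (z.1 : ZMod p) - ρ * (z.2 : ZMod p))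
      (by rw [Finset.card_product, Finset.card_range, Finset.card_univ, ZMod.card]; exact hs2)
      (fun _ _ => Finset.mem_univ _)
  rw [Finset.mem_product, Finset.mem_range, Finset.mem_range] at hx hy
  set a : ℤ := (x.1 : ℤ) - y.1 with ha
  set b : ℤ := (x.2 : ℤ) - y.2 with hb
  have hab0 : a ≠ 0 ∨ b ≠ 0 := by
    by_contra h
    push Not at h
    apply hxy
    ext <;> omega
  have hcong : (a : ZMod p) = ρ * (b : ZMod p) := by
    rw [ha, hb]; push_cast
    linear_combination hfe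
  have hdvd : (p : ℤ) ∣ a ^ 2 + 3 * b ^ 2 := by
    rw [← ZMod.intCast_zmod_eq_zero_iff_dvd]
    push_cast
    rw [hcong, mul_pow, hρ2]; ring
  have ha2 : a ^ 2 ≤ s * s := by
    have h1 : a ≤ s := by omega
    have h2 : -(s : ℤ) ≤ a := by omega
    nlinarith
  have hb2 : b ^ 2 ≤ s * s := by
    have h1 : b ≤ s := by omega
    have h2 : -(s : ℤ) ≤ b := by omega
    nlinarith
  have hsp : (s : ℤ) * s < p := by
    have : s * s < p := lt_of_le_of_ne hs1 hs3
    exact_mod_cast this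
  have hpos : 0 < a ^ 2 + 3 * b ^ 2 := by
    rcases hab0 with h | h
    · have := sq_pos_of_ne_zero h; nlinarith [sq_nonneg b]
    · have := sq_pos_of_ne_zero h; nlinarith [sq_nonneg a]
  obtain ⟨c, hc⟩ := hdvd
  have hp0 : (0 : ℤ) < p := by exact_mod_cast hp.pos
  have hc1 : 0 < c := by
    by_contra h
    push Not at h
    nlinarith
  have hc4 : c < 4 := by
    by_contra h
    push Not at h
    nlinarith
  have hp4 : (p : ℤ) % 4 = 1 := by omega
  -- squares mod 4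
  have sq4 : ∀ z : ℤ, (z % 2 = 0 ∧ z ^ 2 % 4 = 0) ∨ (z % 2 = 1 ∧ z ^ 2 % 4 = 1) := by
    intro z
    rcases Int.even_or_odd z with ⟨t, ht⟩ | ⟨t, ht⟩
    · left; constructor
      · omega
      · subst ht; have : (t + t) ^ 2 = 4 * (t * t) := by ring
        omega
    · right; constructor
      · omega
      · subst ht; have : (2 * t + 1) ^ 2 = 4 * (t * t + t) + 1 := by ring
        omega
  -- p = A^2 + 3 B^2
  obtain ⟨A, B, hAB⟩ : ∃ A B : ℤ, A ^ 2 + 3 * B ^ 2 = p := by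
    interval_cases c
    · exact ⟨a, b, by linarith⟩
    · exfalso
      rcases sq4 a with ⟨_, h1⟩ | ⟨_, h1⟩ <;> rcases sq4 b with ⟨_, h2⟩ | ⟨_, h2⟩ <;> omega
    · have h3 : (3 : ℤ) ∣ a ^ 2 := ⟨p - b ^ 2, by linarith⟩
      have h3' : (3 : ℤ) ∣ a := Int.Prime.dvd_pow' Nat.prime_three (by exact_mod_cast h3)
      obtain ⟨t, ht⟩ := h3'
      refine ⟨b, t, ?_⟩
      rw [ht] at hc
      have : (3 * t) ^ 2 = 9 * t ^ 2 := by ring
      linarith
  have hBe : B % 2 = 0 ∧ A % 2 = 1 := by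
    rcases sq4 A with ⟨h0, h1⟩ | ⟨h0, h1⟩ <;> rcases sq4 B with ⟨h2, h3⟩ | ⟨h2, h3⟩ <;> omega
  obtain ⟨v, hv⟩ : ∃ v : ℤ, B = 2 * v := ⟨B / 2, by omega⟩
  refine ⟨A.natAbs, v.natAbs, ?_, ?_, ?_, ?_⟩
  · by_contra h
    have : A = 0 := by omega
    omega
  · by_contra h
    have hv0 : v = 0 := by omega
    have hB0 : B = 0 := by omega
    rw [hB0] at hAB
    have h1 : A.natAbs * A.natAbs = p := by
      have : (A.natAbs : ℤ) * A.natAbs = p := by
        rw [Int.natAbs_mul_self' A] ; linarith [sq A]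
      exact_mod_cast this
    rcases hp.eq_one_or_self_of_dvd A.natAbs ⟨_, h1.symm⟩ with h2 | h2
    · rw [h2] at h1; have := hp.one_lt; omega
    · rw [h2] at h1; have := hp.one_lt; nlinarith
  · omega
  · zify
    rw [sq_abs, sq_abs, ← hAB, hv]; ring

/-- `12` has an inverse that is a square mod a prime `p = 1 mod 12`. -/
theorem exists_root (p : ℕ) (hp : p.Prime) (h12 : p % 12 = 1) :
    ∃ u : ℕ, 1 ≤ u ∧ u < p ∧ p ∣ 12 * u ^ 2 - 1 := by
  have : Fact p.Prime := ⟨hp⟩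
  have hcard : Nat.card (ZMod p)ˣ = p - 1 := by
    rw [Nat.card_eq_fintype_card, ZMod.card_units_eq_totient, Nat.totient_prime hp]
  obtain ⟨g, hg⟩ := IsCyclic.exists_generator (α := (ZMod p)ˣ)
  have hog : orderOf g = p - 1 := by
    rw [← hcard]; exact orderOf_eq_card_of_forall_mem_zpowers hg
  obtain ⟨m, hm⟩ : ∃ m, p - 1 = 12 * m := ⟨(p - 1) / 12, by omega⟩
  have hm0 : m ≠ 0 := by
    rintro rfl
    have := hp.one_lt; omega
  set z : ZMod p := ((g ^ m : (ZMod p)ˣ) : ZMod p) with hz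
  have hz12 : z ^ 12 = 1 := by
    have : (g ^ m) ^ 12 = 1 := by rw [← pow_mul, mul_comm m 12, ← hm, ← hog, pow_orderOf_eq_one]
    rw [hz, ← Units.val_pow_eq_pow_val, this, Units.val_one]
  have hne : ∀ j, 0 < j → j < 12 → z ^ j ≠ 1 := by
    intro j h1 h2 h3
    have h4 : (g ^ m) ^ j = 1 := by
      ext; rw [Units.val_pow_eq_pow_val, ← hz]; simpa using h3
    rw [← pow_mul] at h4
    have h5 := orderOf_dvd_of_pow_eq_one h4
    rw [hog, hm] at h5
    have h6 : 12 * m ≤ m * j := Nat.le_of_dvd (by positivity) h5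
    nlinarith [Nat.pos_of_ne_zero hm0]
  -- z^4 - z^2 + 1 = 0
  have hphi : z ^ 4 - z ^ 2 + 1 = 0 := by
    have h1 : (z ^ 6 - 1) * ((z ^ 2 + 1) * (z ^ 4 - z ^ 2 + 1)) = 0 := by
      have : (z ^ 6 - 1) * ((z ^ 2 + 1) * (z ^ 4 - z ^ 2 + 1)) = z ^ 12 - 1 := by ring
      rw [this, hz12]; ring
    rcases mul_eq_zero.mp h1 with h | h
    · exact absurd (sub_eq_zero.mp h) (hne 6 (by norm_num) (by norm_num))
    · rcases mul_eq_zero.mp h with h' | h'
      · exfalso
        apply hne 4 (by norm_num) (by norm_num)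
        have : z ^ 4 = (z ^ 2 + 1) * (z ^ 2 - 1) + 1 := by ring
        rw [this, h']; ring
      · exact h'
  -- t = z + z^11 , t^2 = 3
  set t : ZMod p := z + z ^ 11 with ht
  have ht2 : t ^ 2 = 3 := by
    have h1 : t ^ 2 = z ^ 2 + 2 * z ^ 12 + z ^ 12 * z ^ 10 := by rw [ht]; ring
    rw [h1, hz12]
    have h2 : z ^ 10 = z ^ 2 * (z ^ 4 - z ^ 2 + 1) * (z ^ 4 + z ^ 2) - z ^ 4 := by ring
    rw [h2, hphi]
    have h3 : z ^ 4 = (z ^ 4 - z ^ 2 + 1) + z ^ 2 - 1 := by ring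
    rw [h3, hphi]; ring
  have hp2 : (2 : ZMod p) ≠ 0 := by
    intro h
    have : ((2 : ℕ) : ZMod p) = 0 := by exact_mod_cast h
    rw [ZMod.natCast_eq_zero_iff] at this
    have := Nat.le_of_dvd (by norm_num) this
    have := hp.two_le
    omega
  have hp3 : (3 : ZMod p) ≠ 0 := by
    intro h
    have : ((3 : ℕ) : ZMod p) = 0 := by exact_mod_cast h
    rw [ZMod.natCast_eq_zero_iff] at this
    have := Nat.le_of_dvd (by norm_num) this
    have := hp.two_le
    omega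
  have ht0 : t ≠ 0 := by
    rintro h; rw [h] at ht2; apply hp3; rw [← ht2]; ring
  set u : ZMod p := (2 * t)⁻¹ with hu
  have hu2 : 12 * u ^ 2 = 1 := by
    rw [hu]
    have : (12 : ZMod p) = (2 * t) ^ 2 := by rw [mul_pow, ht2]; norm_num
    rw [this]; field_simp
  refine ⟨u.val, ?_, ZMod.val_lt u, ?_⟩
  · rcases Nat.eq_zero_or_pos u.val with h | h
    · rw [ZMod.val_eq_zero] at h
      rw [h] at hu2; simp at hu2
    · exact h
  · have h1 : 1 ≤ 12 * u.val ^ 2 := by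
      have : u.val ≠ 0 := by
        intro h
        rw [ZMod.val_eq_zero] at h
        rw [h] at hu2; simp at hu2
      have : 1 ≤ u.val ^ 2 := Nat.one_le_iff_ne_zero.mpr (by positivity)
      omega
    rw [← ZMod.natCast_eq_zero_iff, Nat.cast_sub h1]
    push_cast
    rw [ZMod.natCast_zmod_val, hu2]; simp

end Pool.Agent.H39.Sq
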