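import Mathlib

open Finset Filter

namespace Pool.Agent.H39.Sq

/-- Gaps between the solutions of `w^2 = E u^2 + F` tend to infinity. -/
theorem gap_lemma (E F : ℤ) (hE : 0 < E) (hns : ¬ IsSquare E) (hF : F ≠ 0) (d0 : ℕ) :
    ∃ B : ℕ, ∀ u1 u2 w1 w2 : ℤ, (B : ℤ) ≤ u1 → u1 < u2 → u2 ≤ u1 + d0 →
      w1 ^ 2 = E * u1 ^ 2 + F → w2 ^ 2 = E * u2 ^ 2 + F → False := by
  refine ⟨(3 * E * d0 * (1 + 4 * |F|) + 2 * |F| + d0 + 1).toNat, ?_⟩
  intro u1 u2 w1 w2 hB h12 h2 hw1 hw2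
  have hF0 : 0 ≤ |F| := abs_nonneg F
  have hd0 : (1 : ℤ) ≤ d0 := by linarith
  have hBn : 0 ≤ 3 * E * d0 * (1 + 4 * |F|) + 2 * |F| + d0 + 1 := by positivity
  rw [Int.toNat_of_nonneg hBn] at hB
  -- nonneg roots
  obtain ⟨a, ha0, ha⟩ : ∃ a : ℤ, 0 ≤ a ∧ a ^ 2 = E * u1 ^ 2 + F :=
    ⟨|w1|, abs_nonneg _, by rw [sq_abs]; exact hw1⟩
  obtain ⟨b, hb0, hb⟩ : ∃ b : ℤ, 0 ≤ b ∧ b ^ 2 = E * u2 ^ 2 + F :=
    ⟨|w2|, abs_nonneg _, by rw [sq_abs]; exact hw2⟩
  clear hw1 hw2 w1 w2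
  have hP : 0 ≤ 3 * E * d0 * (1 + 4 * |F|) := by positivity
  have hu1 : 2 * |F| + d0 + 1 ≤ u1 := by linarith
  have hu1p : 0 < u1 := by linarith
  set d : ℤ := u2 - u1 with hd
  set e : ℤ := b - a with he
  set s : ℤ := u1 + u2 with hs
  set W : ℤ := a + b with hW
  have hd1 : 1 ≤ d := by linarith
  have hdd : d ≤ d0 := by linarith
  have hs1 : 2 * u1 ≤ s := by linarith
  have hs3 : s ≤ 3 * u1 := by linarith
  have hspos : 0 < s := by linarith
  have heW : e * W = E * d * s := by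
    have : e * W = b ^ 2 - a ^ 2 := by rw [he, hW]; ring
    rw [this, ha, hb, hd, hs]; ring
  have hEds : 0 < E * d * s := by positivity
  have hW0 : 0 ≤ W := by linarith
  have hepos : 0 < e := by
    by_contra h
    push Not at h
    have := mul_nonpos_of_nonpos_of_nonneg h hW0
    linarith
  have h2a : u1 ≤ 2 * a := by
    by_contra h
    push Not at h
    have h1 : (2 * a) ^ 2 < u1 ^ 2 := by
      apply pow_lt_pow_left₀ h (by linarith) (by norm_num)
    have h3 : u1 ^ 2 ≤ E * u1 ^ 2 := by nlinarith [sq_nonneg u1]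
    have h4 : -|F| ≤ F := neg_abs_le F
    have h5 : 2 * |F| ≤ u1 ^ 2 := by nlinarith
    nlinarith
  have huW : u1 ≤ W := by linarith
  have he3 : e ≤ 3 * E * d := by
    have h1 : e * u1 ≤ (3 * E * d) * u1 := by
      calc e * u1 ≤ e * W := mul_le_mul_of_nonneg_left huW hepos.le
        _ = E * d * s := heW
        _ ≤ E * d * (3 * u1) := mul_le_mul_of_nonneg_left hs3 (by positivity)
        _ = (3 * E * d) * u1 := by ring
    exact le_of_mul_le_mul_right h1 hu1p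
  set g : ℤ := e ^ 2 - E * d ^ 2 with hg
  have hg0 : g ≠ 0 := by
    intro h
    have h1 : e ^ 2 = E * d ^ 2 := by linarith
    -- E is a square
    apply hns
    have h2 : d ^ 2 ∣ e ^ 2 := ⟨E, by rw [h1]; ring⟩
    have h3 : d ∣ e := (Int.pow_dvd_pow_iff (by norm_num)).mp h2
    obtain ⟨c, hc⟩ := h3
    refine ⟨c, ?_⟩
    rw [hc] at h1
    have h4 : (E - c * c) * d ^ 2 = 0 := by ring_nf; ring_nf at h1; linarith
    rcases mul_eq_zero.mp h4 with h5 | h5
    · linarith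
    · have : d ^ 2 ≠ 0 := by positivity
      exact absurd h5 this
  have hsum : W ^ 2 + e ^ 2 = E * (s ^ 2 + d ^ 2) + 4 * F := by
    have : W ^ 2 + e ^ 2 = 2 * a ^ 2 + 2 * b ^ 2 := by rw [hW, he]; ring
    rw [this, ha, hb, hs, hd]; ring
  have hmain : g * (E * s ^ 2 - e ^ 2) = -4 * F * e ^ 2 := by
    have h1 : e ^ 2 * W ^ 2 = E ^ 2 * d ^ 2 * s ^ 2 := by
      have : e ^ 2 * W ^ 2 = (e * W) ^ 2 := by ring
      rw [this, heW]; ring
    have h2 : W ^ 2 = E * (s ^ 2 + d ^ 2) + 4 * F - e ^ 2 := by linarith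
    rw [h2] at h1
    rw [hg]
    linear_combination h1
  have habs : |E * s ^ 2 - e ^ 2| ≤ 4 * |F| * e ^ 2 := by
    have h1 : 1 ≤ |g| := Int.one_le_abs hg0
    calc |E * s ^ 2 - e ^ 2| = 1 * |E * s ^ 2 - e ^ 2| := by ring
      _ ≤ |g| * |E * s ^ 2 - e ^ 2| := mul_le_mul_of_nonneg_right h1 (abs_nonneg _)
      _ = |g * (E * s ^ 2 - e ^ 2)| := (abs_mul _ _).symm
      _ = |(-4) * F * e ^ 2| := by rw [hmain]
      _ = 4 * |F| * e ^ 2 := by rw [abs_mul, abs_mul, abs_of_nonneg (sq_nonneg e)]; norm_num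
  have h1 : E * s ^ 2 ≤ e ^ 2 * (1 + 4 * |F|) := by
    have := le_abs_self (E * s ^ 2 - e ^ 2)
    linarith
  have h3 : e ^ 2 ≤ (3 * E * d) ^ 2 := pow_le_pow_left₀ hepos.le he3 2
  have h4 : E * s ^ 2 ≤ E * (9 * E * d ^ 2 * (1 + 4 * |F|)) := by
    calc E * s ^ 2 ≤ e ^ 2 * (1 + 4 * |F|) := h1
      _ ≤ (3 * E * d) ^ 2 * (1 + 4 * |F|) := mul_le_mul_of_nonneg_right h3 (by positivity)
      _ = E * (9 * E * d ^ 2 * (1 + 4 * |F|)) := by ring
  have h5 : s ^ 2 ≤ 9 * E * d ^ 2 * (1 + 4 * |F|) := le_of_mul_le_mul_left h4 hE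
  have h6 : d ^ 2 ≤ (d0 : ℤ) ^ 2 := pow_le_pow_left₀ (by linarith) hdd 2
  have h7 : s ^ 2 ≤ 9 * E * (d0 : ℤ) ^ 2 * (1 + 4 * |F|) := by
    refine h5.trans ?_
    apply mul_le_mul_of_nonneg_right _ (by positivity)
    exact mul_le_mul_of_nonneg_left h6 (by positivity)
  have h8 : 3 * E * d0 * (1 + 4 * |F|) < u1 := by linarith
  have h9 : 2 * (3 * E * d0 * (1 + 4 * |F|)) < s := by linarith
  have h10 : (2 * (3 * E * d0 * (1 + 4 * |F|))) ^ 2 < s ^ 2 :=
    pow_lt_pow_left₀ h9 (by positivity) (by norm_num)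
  have h11 : 9 * E * (d0 : ℤ) ^ 2 * (1 + 4 * |F|) ≤ (2 * (3 * E * d0 * (1 + 4 * |F|))) ^ 2 := by
    have e1 : (2 * (3 * E * d0 * (1 + 4 * |F|))) ^ 2
      = (9 * E * (d0 : ℤ) ^ 2 * (1 + 4 * |F|)) * (4 * (E * (1 + 4 * |F|))) := by ring
    rw [e1]
    apply le_mul_of_one_le_right (by positivity)
    have : (1 : ℤ) ≤ E * (1 + 4 * |F|) := by nlinarith
    linarith
  linarith

/-- A set of naturals with gaps at least `D` beyond `B` has at most `B + J / D + 1` elements below `J`. -/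
theorem count_lemma (A : ℕ → Prop) [DecidablePred A] (D B J : ℕ) (hD : 1 ≤ D)
    (h : ∀ i j, B ≤ i → i < j → A i → A j → D ≤ j - i) :
    ((Finset.range J).filter A).card ≤ B + J / D + 1 := by
  have h1 : (Finset.range J).filter A ⊆
      Finset.range B ∪ ((Finset.range J).filter (fun i => A i ∧ B ≤ i)) := by
    intro i hi
    rw [Finset.mem_filter, Finset.mem_range] at hi
    rw [Finset.mem_union, Finset.mem_filter, Finset.mem_range, Finset.mem_range]
    by_cases hb : i < B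
    · exact Or.inl hb
    · exact Or.inr ⟨hi.1, hi.2, by omega⟩
  have h2 : ((Finset.range J).filter (fun i => A i ∧ B ≤ i)).card ≤ (Finset.range (J / D + 1)).card := by
    apply Finset.card_le_card_of_injOn (fun i => i / D)
    · intro i hi
      rw [Finset.mem_coe, Finset.mem_filter, Finset.mem_range] at hi
      rw [Finset.mem_coe, Finset.mem_range]
      change i / D < J / D + 1
      have := Nat.div_le_div_right (c := D) hi.1.le
      omega
    · intro i hi j hj hij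
      rw [Finset.mem_coe, Finset.mem_filter, Finset.mem_range] at hi hj
      simp only at hij
      by_contra hne
      have key : ∀ i j, B ≤ i → i < j → A i → A j → i / D = j / D → False := by
        intro i j hb hlt hi hj hij
        have h3 := h i j hb hlt hi hj
        have h4 := Nat.div_add_mod i D
        have h5 := Nat.div_add_mod j D
        have h6 := Nat.mod_lt j (show 0 < D by omega)
        have h7 := Nat.mod_lt i (show 0 < D by omega)
        rw [hij] at h4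
        omega
      rcases lt_or_gt_of_ne hne with h3 | h3
      · exact key i j hi.2.2 h3 hi.2.1 hj.2.1 hij
      · exact key j i hj.2.2 h3 hj.2.1 hi.2.1 hij.symm
  rw [Finset.card_range] at h2
  calc ((Finset.range J).filter A).card ≤ _ := Finset.card_le_card h1
    _ ≤ (Finset.range B).card + _ := Finset.card_union_le _ _
    _ ≤ B + J / D + 1 := by rw [Finset.card_range]; omega

end Pool.Agent.H39.Sq
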